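import Pool.Agent.J4.H28.BC.Main

/-!
# `k`-fold acyclic balls without rank `k` boolean interval decompositions (`k ≥ 3`)

The example for `k = 3` is a 4-ball with 46 vertices and 515 facets: a 4-ball `Y` with 290 facets
and without interior vertices and edges, with 45 gadgets glued on its boundary.  A gadget is the cone over a 3-ball with 6 vertices and 5
tetrahedra, glued along the cone over a strip of 4 triangles, so that it has 5 new edges, 10 + 5
new faces of dimension 2, 10 + 5 of dimension 3 and 5 new facets.  The new faces of one gadget
cannot be covered by disjoint intervals whose bottoms are edges, so every gadget meets an interval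
whose bottom has at most one vertex.  Such an interval meets at most one gadget, and there are at
most `46 - 2 = 44` such intervals (`Pool.Agent.J4.H28.BC.low_card`).  For larger `k` the example is
an iterated cone.
-/

set_option autoImplicit false

universe u

namespace Pool.Agent.Results.MP_051ecf_co.BallsWithoutDecomposition

open Pool.Agent.Helper221.BID Pool.Agent.J4.H28.BC

/-- For every `k ≥ 3` there is a simplicial `(k + 1)`-ball that is `k`-fold acyclic over every field
and has no rank `k` boolean interval decomposition. -/
theorem result : ∀ k : ℕ, 3 ≤ k → ∃ Δ : Cpx, Δ.IsBall (k + 1) ∧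
    (∀ (F : Type u) [Field F], Δ.KFoldAcyclic F k) ∧ ¬ ∃ D, Δ.IsDecomp k D := by
  intro k hk
  obtain ⟨m, rfl⟩ : ∃ m, k = m + 3 := ⟨k - 3, by omega⟩
  exact ⟨KX m, KX_ball m, fun F _ => KX_kfold F m, KX_nodec m⟩

end Pool.Agent.Results.MP_051ecf_co.BallsWithoutDecomposition
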